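import Mathlib
import Pool.Agent.N718.GB.All

/-!
# The Brauer-Manin obstruction is the only obstruction for 100% of the fibre products of generalised
# Châtelet bundles (helper718)

Let `a_j`, `b_j`, `j < r`, be any nonzero integers and let `I_j` be any sets of indices `i < m`. Let `F_i`,
`i < m`, be binary forms with integral coefficients, of degrees `e_i + 1`, such that
`∑_{i ∈ I_j} (e_i + 1)` is even for all `j`. We consider the rationally connected variety `X_F` fibred over
`ℙ¹` in products of `r` conics, given by

  `y_j² - a_j z_j² = b_j ∏_{i ∈ I_j} F_i(x) ≠ 0`, `j < r`.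

Let `R` be a set of pairs `(j, i)` with `i ∈ I_j`, such that `∏_{(j, i) ∈ R} a_j ^ (e_i + 1)` is a square.
Then `∑_{(j, i) ∈ R} (a_j, F_i)` is a well defined class in the Brauer group of the function field of `ℙ¹`,
and it is unramified on the smooth proper models of `X_F`, since its residue at the points where `F_i = 0`
is the class of the product of the `a_j`, `(j, i) ∈ R`, whose square roots are contained in the fields of
definition of the components of the fibre. These classes can obstruct the Hasse principle. If the `a_j` are
independent modulo squares then for 100% of the families `F` there is no such obstruction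
(`Pool/Agent/Results/MP_d4938b_nt/RandomChateletProducts.lean`); in general the obstruction can occur with
positive probability: for instance for `y_1² - a z_1² = b_1 F_1 F_2`, `y_2² - a z_2² = b_2 F_2 F_3` the class
`(a, F_1)` can only change its value at primes modulo which all the three forms have a common zero.

We show that for 100% of the families `F`, ordered by the maximum `H` of the absolute values of all the
coefficients, this is the only obstruction: for every family of local points which is orthogonal to these
classes there is a rational point, over a base point in a given open set `U ⊆ ℝ` if this holds for the real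
point, and close to the base points of the given `p`-adic points for the primes `p` in a given finite set
`S`. Moreover, a positive proportion of the `X_F` has rational points, if at least one of them has.

Proof. Outside of a set of families of small density, for all primes `l > W` at most two forms have a
common zero modulo `l`. The possible changes of the vector of the symbols `(a_j / P_i)`, `i ∈ I_j`, of the
prime values `± g_i P_i` of the forms at suitable base points (see
`Pool/Agent/Results/MP_d4938b_nt/RandomChateletProducts.lean`) by the choice of local points at the primes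
`l > W` generate a group `G` of vectors of signs, which depends only on the characters of the group generated
by the `a_j`: there are the changes by common zeros of two forms, and those by multiplication of the
coordinates of the base point by `l`. For 100% of the families every element of `G` is realised by primes
`l` in a large interval `(W, W']`. A set `R` which is orthogonal to `G` defines an unramified class, and the
local points at all primes `l > W` are orthogonal to it, so that the sum of its invariants at the real
place and at the primes up to `W` vanishes. By duality the vector of symbols which belongs to the given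
local points at these places is in `G`, and it can be made trivial.
-/

set_option autoImplicit false

namespace Pool.Agent.Results.MP_12adaf_nt.BrauerManinRandomProducts

open Finset Filter Topology

/-- The value at the point `(x, y)` of the binary form `∑ c_j x^(e + 1 - j) y^j` of degree `e + 1`. -/
def value {e : ℕ} (c : Fin (e + 2) → ℤ) {K : Type} [CommRing K] (x y : K) : K :=
  ∑ j : Fin (e + 2), (c j : K) * x ^ (e + 1 - (j : ℕ)) * y ^ (j : ℕ)

/-- The fixed data of the system of equations `y_j² - a_j z_j² = b_j ∏_{i ∈ I_j} F_i(x)`, `j < r`: the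
sets `I_j` of indices `i < m` and the integers `a_j` and `b_j`. -/
structure Data (r m : ℕ) where
  /-- the sets of indices -/
  I : Fin r → Finset (Fin m)
  /-- the coefficients on the left -/
  a : Fin r → ℤ
  /-- the constant factors on the right -/
  b : Fin r → ℤ

variable {r m : ℕ}

/-- The `a_j` and the `b_j` are not zero, and the right hand sides have even degree, if the form `F_i`
has the degree `e i + 1`. -/
structure Data.Admissible (E : Data r m) (e : Fin m → ℕ) : Prop where
  nonzero_a : ∀ j, E.a j ≠ 0
  nonzero_b : ∀ j, E.b j ≠ 0
  even : ∀ j, Even (∑ i ∈ E.I j, (e i + 1))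

/-- There is a point over the field `K` over the base point `(x, y)`, and no form `F_i` vanishes there.
The form `F_i` has the coefficients `c i`. -/
def HasPoint (E : Data r m) {e : Fin m → ℕ} (c : (i : Fin m) → Fin (e i + 2) → ℤ) {K : Type} [Field K]
    (x y : K) : Prop :=
  (∀ i, value (c i) x y ≠ 0) ∧
    ∀ j, ∃ u v : K, u ^ 2 - (E.a j : K) * v ^ 2 = (E.b j : K) * ∏ i ∈ E.I j, value (c i) x y

open Classical in
/-- The Hilbert symbol `(a, N)` over the field `K` (for `K = ℝ` or `K = ℚ_p` and `a, N ≠ 0`): it is `1` if
`u² - a v² = N` is soluble and `-1` otherwise. -/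
noncomputable def hilbert {K : Type} [Field K] (a N : K) : ℤ :=
  if ∃ u v : K, u ^ 2 - a * v ^ 2 = N then 1 else -1

/-- The value `1` or `-1` of the class `∑_{(j, i) ∈ R} (a_j, F_i)` at the points over the base point
`(x, y)`. -/
noncomputable def classValue (E : Data r m) {e : Fin m → ℕ} (c : (i : Fin m) → Fin (e i + 2) → ℤ)
    (R : Finset (Fin r × Fin m)) {K : Type} [Field K] (x y : K) : ℤ :=
  ∏ z ∈ R, hilbert (E.a z.1 : K) (value (c z.2) x y)

/-- All the pairs `(j, i)` in `R` satisfy `i ∈ I_j`, and `∏_{(j, i) ∈ R} a_j ^ (e_i + 1)` is a square: the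
class `∑_{(j, i) ∈ R} (a_j, F_i)` does not depend on the homogeneous coordinates and is unramified. -/
def IsUnramified (E : Data r m) (e : Fin m → ℕ) (R : Finset (Fin r × Fin m)) : Prop :=
  (∀ z ∈ R, z.2 ∈ E.I z.1) ∧ IsSquare (∏ z ∈ R, E.a z.1 ^ (e z.2 + 1))

/-- The `p`-adic points over `(X p, Y p)` and the real point over `(1, t)` are orthogonal to all these
unramified classes: the values of the class are `1` for all primes outside of a finite set, and the
product of the values at the primes of this set and at the real point is `1`. -/
def Orthogonal (E : Data r m) {e : Fin m → ℕ} (c : (i : Fin m) → Fin (e i + 2) → ℤ)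
    (X Y : (p : Nat.Primes) → ℚ_[(p : ℕ)]) (t : ℝ) : Prop :=
  ∀ R : Finset (Fin r × Fin m), IsUnramified E e R → ∃ S : Finset Nat.Primes,
    (∀ p, p ∉ S → classValue E c R (X p) (Y p) = 1) ∧
      classValue E c R (1 : ℝ) t * ∏ p ∈ S, classValue E c R (X p) (Y p) = 1

/-- There is a rational point over an integral base point `(x, y)` with `x > 0` and `y / x ∈ U`. -/
def HasRationalPoint (E : Data r m) {e : Fin m → ℕ} (U : Set ℝ)
    (c : (i : Fin m) → Fin (e i + 2) → ℤ) : Prop :=
  ∃ x y : ℤ, 0 < x ∧ (y : ℝ) / x ∈ U ∧ HasPoint E c (x : ℚ) (y : ℚ)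

/-- The Brauer-Manin obstruction (by the classes above) is the only obstruction: for all families of
`p`-adic points over `(X p, Y p)`, in primitive homogeneous coordinates, and all real points over
`(1, t)` with `t ∈ U`, which are orthogonal to the classes, there is a rational point over an integral base
point `(x, y)` with `x > 0` and `y / x ∈ U`, which is congruent to `(X p, Y p)` modulo `p ^ N`, for all `p` in
`S`. -/
def OnlyObstruction (E : Data r m) {e : Fin m → ℕ} (U : Set ℝ) (S : Finset Nat.Primes) (N : ℕ)
    (c : (i : Fin m) → Fin (e i + 2) → ℤ) : Prop :=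
  ∀ (X Y : (p : Nat.Primes) → ℚ_[(p : ℕ)]) (t : ℝ), t ∈ U → HasPoint E c (1 : ℝ) t →
    (∀ p, HasPoint E c (X p) (Y p)) → (∀ p, max ‖X p‖ ‖Y p‖ = 1) → Orthogonal E c X Y t →
    ∃ x y : ℤ, 0 < x ∧ (y : ℝ) / x ∈ U ∧ HasPoint E c (x : ℚ) (y : ℚ) ∧
      ∀ p ∈ S, ‖X p - (x : ℚ_[(p : ℕ)])‖ ≤ (((p : ℕ) : ℝ) ^ N)⁻¹ ∧
        ‖Y p - (y : ℚ_[(p : ℕ)])‖ ≤ (((p : ℕ) : ℝ) ^ N)⁻¹

/-- The families of forms whose coefficients are integers of absolute value at most `H`. -/
noncomputable def families (e : Fin m → ℕ) (H : ℕ) : Finset ((i : Fin m) → Fin (e i + 2) → ℤ) :=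
  Fintype.piFinset fun _ => Fintype.piFinset fun _ => Icc (-(H : ℤ)) H

lemma card_families (e : Fin m → ℕ) (H : ℕ) :
    ((families e H).card : ℝ) = ((2 * H + 1 : ℕ) : ℝ) ^ Pool.Agent.N718.DC.ncI e := by
  have h1 : ((Icc (-(H : ℤ)) H).card) = 2 * H + 1 := by
    rw [Int.card_Icc]
    omega
  unfold families Pool.Agent.N718.DC.ncI
  rw [Fintype.card_piFinset]
  simp only [Fintype.card_piFinset, h1, prod_const, card_univ, Fintype.card_fin]
  rw [← Finset.prod_pow_eq_pow_sum]
  push_cast
  rfl

/-- The same data in the notation of the library. -/
def toDat (E : Data r m) : Pool.Agent.N718.GC.Dat r m := ⟨E.I, E.a, E.b⟩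

lemma toDat_ok {E : Data r m} {e : Fin m → ℕ} (h : E.Admissible e) :
    Pool.Agent.N718.GB.Ok2 (toDat E) e := ⟨h.nonzero_a, h.nonzero_b, h.even⟩

lemma only_iff (E : Data r m) {e : Fin m → ℕ} (U : Set ℝ) (S : Finset Nat.Primes) (N : ℕ)
    (c : (i : Fin m) → Fin (e i + 2) → ℤ) :
    OnlyObstruction E U S N c ↔ Pool.Agent.N718.GB.BMG (toDat E) U S N c := Iff.rfl

open Classical in
/-- **The Brauer-Manin obstruction is the only obstruction for 100% of the fibre products of generalised
Châtelet bundles.** -/
theorem result (r m : ℕ) (hm : 1 ≤ m) (e : Fin m → ℕ) (E : Data r m) (hE : E.Admissible e)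
    (U : Set ℝ) (hU : IsOpen U) (S : Finset Nat.Primes) (N : ℕ) :
    Tendsto (fun H : ℕ => ({c ∈ families e H | OnlyObstruction E U S N c}.card : ℝ) /
      ((families e H).card : ℝ)) atTop (𝓝 1) ∧
    ((∃ c : (i : Fin m) → Fin (e i + 2) → ℤ, HasRationalPoint E U c) →
      ∃ c₀ : ℝ, 0 < c₀ ∧ ∀ᶠ H : ℕ in atTop,
        c₀ * (families e H).card ≤ ({c ∈ families e H | HasRationalPoint E U c}.card : ℝ)) := by
  refine ⟨?_, ?_⟩
  · have hA := Pool.Agent.N718.GB.mainb2 r m (toDat E) e hm (toDat_ok hE) U hU S N
    rw [Metric.tendsto_atTop]
    intro ε hε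
    obtain ⟨H₁, hH₁⟩ := hA (ε / 2) (by positivity)
    refine ⟨H₁, fun H hH => ?_⟩
    have h2 : ({c ∈ families e H | ¬ OnlyObstruction E U S N c}.card : ℝ) ≤
        (ε / 2) * (families e H).card := by
      rw [card_families]
      exact hH₁ H hH
    have hF : (0 : ℝ) < (families e H).card := by
      rw [card_families]
      positivity
    have hsplit : ((families e H).card : ℝ) =
        ({c ∈ families e H | OnlyObstruction E U S N c}.card : ℝ) +
          ({c ∈ families e H | ¬ OnlyObstruction E U S N c}.card : ℝ) := by
      rw [← Nat.cast_add, Nat.cast_inj]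
      exact (Finset.card_filter_add_card_filter_not (fun c => OnlyObstruction E U S N c)).symm
    rw [Real.dist_eq, abs_sub_comm, abs_of_nonneg]
    · rw [sub_lt_comm, lt_div_iff₀ hF]
      nlinarith
    · rw [sub_nonneg, div_le_one hF, hsplit]
      have : (0 : ℝ) ≤ ({c ∈ families e H | ¬ OnlyObstruction E U S N c}.card : ℝ) :=
        Nat.cast_nonneg _
      linarith
  · intro hne
    obtain ⟨c₀, hc₀, H₀, hpos⟩ := Pool.Agent.N718.GB.mainc r m (toDat E) e (toDat_ok hE) U hU hne
    refine ⟨c₀, hc₀, eventually_atTop.2 ⟨H₀, fun H hH => ?_⟩⟩
    rw [card_families]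
    exact hpos H hH

end Pool.Agent.Results.MP_12adaf_nt.BrauerManinRandomProducts
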