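import Pool.Agent.N918.MS.Cnt
import Pool.Agent.Results.MP_12adaf_nt.AbelianNormForms

/-!
# Approximation of local points on the varieties `N_{Kᵢ/ℚ}(zᵢ) = cᵢ (f(t) + k)` along random and metric sequences

Let `L` be a cyclotomic field, let `f` be an integral polynomial of degree at least two in any number of variables, let the
`cᵢ` be nonzero integers, `i < r`, and let the `Kᵢ` be subfields of `L` with class numbers prime to their degrees, such that
`-1` is a norm or all norms are nonnegative. There are finite sets `T₀(K, f, c)` of primes such that the following holds, for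
ALL these data at once, outside of ONE event (set) of probability (measure) zero.

Say that `k` is good for `K`, `f`, `c`, a finite set `T ⊇ T₀(K, f, c)` of primes and a level `N`, if the variety
`V_k : N_{Kᵢ/ℚ}(zᵢ) = cᵢ (f(t) + k) ≠ 0` has the property of the starting theorem `AbelianNormForms`: under the necessary
condition at the real place every family of `p`-adic points, `p` in `T`, of level `N` is approximated by a rational point in the
coordinates `t`. Then

* for random integers `X_n`, of ANY dependence, with `P (X_n = k) ≤ C / (|k| + 1)`, almost surely all but finitely many `X_n`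
  are good, if `|X_n| ≥ exp (n ^ δ)` outside of events with a convergent sum of probabilities; all but `M / (log M) ^ U` of
  the `X_n`, `n < M`, are good for all `U`, if `∑_{n < M} P (|X_n| < M ^ δ) ≤ C M ^ (1 - δ)`;
* for all linear forms `a_n` in `d` variables with norms at least `exp (n ^ δ)`, for almost all vectors `α`, all but finitely
  many `⌊a_n (α)⌋` are good; the same for `⌊h_n (x)⌋`, for almost all `x` in an interval on which `|h_n'| ≥ c |h_n|` and
  `|h_n| ≥ exp (n ^ δ)`; the same for `⌊ξ x ^ n⌋`, for all `ξ ≠ 0` and almost all `x > 1`;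
* for ANY sequence of real numbers `a_n` with mutual distances at least `δ > 0`, in any order, and almost all real `α` all but
  `M / (log M) ^ U` of the `⌊a_n α⌋`, `n < M`, are good, for all `U`.
-/

set_option autoImplicit false

namespace Pool.Agent.Results.MP_12adaf_nt.MetricSequences

open Finset Filter MvPolynomial NumberField Module MeasureTheory
open Pool.Agent.N918.MS (AlmostAlways RandomAndMetric randomAndMetric)
open Pool.Agent.Results.MP_12adaf_nt.AbelianNormForms (Approximation RealCond Admissible)

/-- the data: subfields `Kᵢ` of `L`, a polynomial `f`, coefficients `cᵢ`, a finite set `T` of primes and a level `N` -/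
structure Data (L : Type) [Field L] [NumberField L] where
  r : ℕ
  s : ℕ
  K : Fin r → IntermediateField ℚ L
  f : MvPolynomial (Fin s) ℤ
  c : Fin r → ℤ
  T : Finset Nat.Primes
  N : ℕ

variable {L : Type} [Field L] [NumberField L]

/-- the conditions on the fields, the polynomial and the coefficients -/
structure Data.Conditions (x : Data L) : Prop where
  fields : ∀ i, Admissible (x.K i)
  degree : 2 ≤ x.f.totalDegree
  nonzero : ∀ i, x.c i ≠ 0

/-- `V_k` has the approximation property, if it satisfies the condition at the real place -/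
def Good (x : Data L) (k : ℤ) : Prop :=
  RealCond x.K x.f x.c k → Approximation x.K x.f x.c x.T x.N k

instance : Countable (Data L) := by
  have := Pool.Agent.N918.MS.finite_if L
  have := Pool.Agent.N918.MS.countable_mv
  have h : Function.Surjective (fun y : (Σ r : ℕ, Σ s : ℕ, (Fin r → IntermediateField ℚ L) × MvPolynomial (Fin s) ℤ ×
      (Fin r → ℤ) × Finset Nat.Primes × ℕ) => (⟨y.1, y.2.1, y.2.2.1, y.2.2.2.1, y.2.2.2.2.1, y.2.2.2.2.2.1, y.2.2.2.2.2.2⟩ :
      Data L)) := fun x => ⟨⟨x.r, x.s, x.K, x.f, x.c, x.T, x.N⟩, rfl⟩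
  exact h.countable

/-- **Approximation of local points along random and metric sequences.** Here `L` is the `m`-th cyclotomic field. -/
theorem result (m : ℕ) [NeZero m] (L : Type) [Field L] [NumberField L] [IsCyclotomicExtension {m} ℚ L] :
    ∃ T₀ : ∀ {r s : ℕ}, (Fin r → IntermediateField ℚ L) → MvPolynomial (Fin s) ℤ → (Fin r → ℤ) → Finset Nat.Primes,
      RandomAndMetric (fun (x : {x : Data L // x.Conditions ∧ T₀ x.K x.f x.c ⊆ x.T}) k => Good x.1 k) := by
  classical
  have h0 : ∀ (r s : ℕ) (K : Fin r → IntermediateField ℚ L) (f : MvPolynomial (Fin s) ℤ) (c : Fin r → ℤ),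
      ∃ T₀ : Finset Nat.Primes, (∀ i, Admissible (K i)) ∧ 2 ≤ f.totalDegree ∧ (∀ i, c i ≠ 0) →
      ∀ T : Finset Nat.Primes, T₀ ⊆ T → ∀ N : ℕ, AlmostAlways (fun k => RealCond K f c k → Approximation K f c T N k) := by
    intro r s K f c
    by_cases hc : (∀ i, Admissible (K i)) ∧ 2 ≤ f.totalDegree ∧ (∀ i, c i ≠ 0)
    · obtain ⟨T₀, h⟩ := Pool.Agent.Results.MP_12adaf_nt.AbelianNormForms.result m K hc.1 f hc.2.1 c hc.2.2
      refine ⟨T₀, fun _ T hT N => AlmostAlways.of_card fun U => ?_⟩
      obtain ⟨X₀, hX₀⟩ := h T hT N U
      refine ⟨X₀, fun X hX => le_trans (le_of_eq ?_) (hX₀ X hX)⟩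
      congr!
    · exact ⟨∅, fun h => absurd h hc⟩
  choose T₀ hT₀ using h0
  refine ⟨fun {r s} => T₀ r s, randomAndMetric _ ?_⟩
  rintro ⟨x, hx, hT⟩
  exact hT₀ x.r x.s x.K x.f x.c ⟨hx.fields, hx.degree, hx.nonzero⟩ x.T hT x.N

end Pool.Agent.Results.MP_12adaf_nt.MetricSequences
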