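import Mathlib
import Pool.Agent.N718.DC.All

/-!
# The Hasse principle for 100% of the diagonal conic bundles over the projective line, and for their
# fibre products (helper718)

Let `r ≥ 0` and let `F_{i,l}`, `i < r`, `l < 3`, be binary forms with integral coefficients, of degrees
`e_{i,l} + 1` with `e_{i,0} ≡ e_{i,1} ≡ e_{i,2}` modulo `2`. Let `X_F` be the fibre product over `ℙ¹` of
the `r` diagonal conic bundles `F_{i,0}(x, y) u² + F_{i,1}(x, y) v² = F_{i,2}(x, y) w²`: a geometrically
rational surface for `r = 1`, and a rationally connected variety of dimension `r + 1` in general, with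
`∑ (e_{i,l} + 1)` degenerate geometric fibres. The Hasse principle can fail for these varieties.

We order the families `F` by the maximum `H` of the absolute values of all their coefficients. A positive
proportion of the `X_F` has points over the real numbers and over all the `p`-adic numbers, and for 100%
of these the Hasse principle holds, together with approximation for the base points: at a finite set `S`
of primes to any given precision, and at the real place the base point can be prescribed in an open set.

Proof. All the coefficients vary; we look for a base point `(x, y)`, with `x` fixed and `y` in a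
progression of length a power of `log H`, for which all the values `F_{i,l}(x, y)` are, up to given
divisors composed of small primes, prime numbers `P_{i,l}`, and for which the Legendre symbols
`(P_{i,l} / P_{i,l'})`, `l < l'`, have prescribed values. Two coefficients of every form give a second
moment, which is evaluated with the theorem of Siegel and Walfisz, up to `O(1 / W)` if the primes up to
`W` are fixed by congruences; the symbols are removed with a bilinear estimate for Jacobi symbols. The
symbols are chosen such that two of the three conditions at the primes `P_{i,l}` hold, and the third one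
follows from the product formula. At the primes up to `W` one has to replace the given local point by
one at which the forms have bounded valuations and the same square classes; this is possible if the
family is not degenerate modulo a high power of `p`, hence for all but `ε` of the families. At the
real place one uses that the sets of families with given signs conditions have convex sections.
-/

set_option autoImplicit false

namespace Pool.Agent.Results.MP_12adaf_nt.RandomDiagonalConicBundles

open Finset Filter Topology

/-- The value at the point `(x, y)` of the binary form `∑ c_j x^(e + 1 - j) y^j` of degree `e + 1`. -/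
def value {e : ℕ} (c : Fin (e + 2) → ℤ) {K : Type} [CommRing K] (x y : K) : K :=
  ∑ j : Fin (e + 2), (c j : K) * x ^ (e + 1 - (j : ℕ)) * y ^ (j : ℕ)

/-- The conic `A u² + B v² = C w²` has a point over the field `K`. -/
def Soluble {K : Type} [Field K] (A B C : K) : Prop :=
  ∃ u v w : K, (u ≠ 0 ∨ v ≠ 0 ∨ w ≠ 0) ∧ A * u ^ 2 + B * v ^ 2 = C * w ^ 2

variable {r : ℕ} {e : Fin r × Fin 3 → ℕ}

/-- The fibre product of the conic bundles `F_{i,0} u² + F_{i,1} v² = F_{i,2} w²`, given by the families
`c (i, l)` of the coefficients of the forms `F_{i,l}`, has a point over the field `K` over the base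
point `(x, y)`, and this is not a base point of a degenerate fibre. -/
def HasPoint (c : (k : Fin r × Fin 3) → Fin (e k + 2) → ℤ) {K : Type} [Field K] (x y : K) : Prop :=
  (∀ k, value (c k) x y ≠ 0) ∧
    ∀ i, Soluble (value (c (i, 0)) x y) (value (c (i, 1)) x y) (value (c (i, 2)) x y)

/-- There are a real point over a base point `(1, z)` with `z` in `U` and a `p`-adic point for every
prime number `p`. -/
def LocallySoluble (U : Set ℝ) (c : (k : Fin r × Fin 3) → Fin (e k + 2) → ℤ) : Prop :=
  (∃ z ∈ U, HasPoint c (1 : ℝ) z) ∧ ∀ p : Nat.Primes, ∃ x y : ℚ_[(p : ℕ)], HasPoint c x y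

/-- For all `p`-adic points, `p` in `S`, with primitive base points `(X p, Y p)`, there is a rational
point with an integral base point `(x, y)` which satisfies `x > 0`, `y / x ∈ U` and is congruent to the
`(X p, Y p)` modulo `p ^ N`, for all `p` in `S`. For `S = ∅` this says that there is a rational point with
`x > 0` and `y / x ∈ U`. -/
def Approximation (U : Set ℝ) (S : Finset Nat.Primes) (N : ℕ)
    (c : (k : Fin r × Fin 3) → Fin (e k + 2) → ℤ) : Prop :=
  ∀ X Y : (p : Nat.Primes) → ℚ_[(p : ℕ)], (∀ p ∈ S, max ‖X p‖ ‖Y p‖ = 1 ∧ HasPoint c (X p) (Y p)) →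
    ∃ x y : ℤ, 0 < x ∧ (y : ℝ) / x ∈ U ∧ HasPoint c (x : ℚ) (y : ℚ) ∧
      ∀ p ∈ S, ‖X p - (x : ℚ_[(p : ℕ)])‖ ≤ (((p : ℕ) : ℝ) ^ N)⁻¹ ∧
        ‖Y p - (y : ℚ_[(p : ℕ)])‖ ≤ (((p : ℕ) : ℝ) ^ N)⁻¹

/-- The families of forms whose coefficients are integers of absolute value at most `H`. -/
noncomputable def families (e : Fin r × Fin 3 → ℕ) (H : ℕ) :
    Finset ((k : Fin r × Fin 3) → Fin (e k + 2) → ℤ) :=
  Fintype.piFinset fun _ => Fintype.piFinset fun _ => Icc (-(H : ℤ)) H

lemma card_families (e : Fin r × Fin 3 → ℕ) (H : ℕ) :
    ((families e H).card : ℝ) = ((2 * H + 1 : ℕ) : ℝ) ^ Pool.Agent.N718.DC.ncI e := by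
  have h1 : ((Icc (-(H : ℤ)) H).card) = 2 * H + 1 := by
    rw [Int.card_Icc]
    omega
  unfold families Pool.Agent.N718.DC.ncI
  rw [Fintype.card_piFinset]
  simp only [Fintype.card_piFinset, h1, prod_const, card_univ, Fintype.card_fin]
  rw [← Finset.prod_pow_eq_pow_sum]
  push_cast
  rfl

open Classical in
/-- **The Hasse principle for 100% of the fibre products of diagonal conic bundles.** -/
theorem result (r : ℕ) (e : Fin r × Fin 3 → ℕ) (he : ∀ i l l', e (i, l) % 2 = e (i, l') % 2)
    (U : Set ℝ) (hU : IsOpen U) (hne : U.Nonempty) (S : Finset Nat.Primes) (N : ℕ) :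
    (∃ c₀ : ℝ, 0 < c₀ ∧ ∀ᶠ H : ℕ in atTop,
      c₀ * (families e H).card ≤ ({c ∈ families e H | LocallySoluble U c}.card : ℝ)) ∧
    Tendsto (fun H : ℕ =>
      ({c ∈ families e H | LocallySoluble U c ∧ Approximation U S N c}.card : ℝ) /
        ({c ∈ families e H | LocallySoluble U c}.card : ℝ)) atTop (𝓝 1) := by
  obtain ⟨c₀, hc₀, H₀, hpos⟩ := Pool.Agent.N718.DC.mainb r e U hU hne
  have hA := Pool.Agent.N718.DC.maina r e he U hU S N
  have hpos' : ∀ H : ℕ, H₀ ≤ H →
      c₀ * (families e H).card ≤ ({c ∈ families e H | LocallySoluble U c}.card : ℝ) := by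
    intro H hH
    rw [card_families]
    exact hpos H hH
  refine ⟨⟨c₀, hc₀, eventually_atTop.2 ⟨H₀, hpos'⟩⟩, ?_⟩
  rw [Metric.tendsto_atTop]
  intro ε hε
  obtain ⟨H₁, hH₁⟩ := hA (c₀ * (ε / 2)) (by positivity)
  refine ⟨max H₀ H₁, fun H hH => ?_⟩
  have h1 := hpos' H ((le_max_left _ _).trans hH)
  have h2 : ({c ∈ families e H | LocallySoluble U c ∧ ¬ Approximation U S N c}.card : ℝ) ≤
      c₀ * (ε / 2) * (families e H).card := by
    rw [card_families]
    exact hH₁ H ((le_max_right _ _).trans hH)
  have hF : (0 : ℝ) < (families e H).card := by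
    rw [card_families]
    positivity
  have hL : (0 : ℝ) < ({c ∈ families e H | LocallySoluble U c}.card : ℝ) :=
    lt_of_lt_of_le (by positivity) h1
  have hsplit : ({c ∈ families e H | LocallySoluble U c}.card : ℝ) =
      ({c ∈ families e H | LocallySoluble U c ∧ Approximation U S N c}.card : ℝ) +
        ({c ∈ families e H | LocallySoluble U c ∧ ¬ Approximation U S N c}.card : ℝ) := by
    rw [← Nat.cast_add, Nat.cast_inj, ← Finset.filter_filter, ← Finset.filter_filter]
    exact (Finset.card_filter_add_card_filter_not (fun c => Approximation U S N c)).symm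
  rw [Real.dist_eq, abs_sub_comm, abs_of_nonneg]
  · rw [sub_lt_comm, lt_div_iff₀ hL]
    have h3 : c₀ * (ε / 2) * (families e H).card ≤
        (ε / 2) * ({c ∈ families e H | LocallySoluble U c}.card : ℝ) := by
      nlinarith
    nlinarith
  · rw [sub_nonneg, div_le_one hL, hsplit]
    have : (0 : ℝ) ≤ ({c ∈ families e H | LocallySoluble U c ∧ ¬ Approximation U S N c}.card : ℝ) :=
      Nat.cast_nonneg _
    linarith

end Pool.Agent.Results.MP_12adaf_nt.RandomDiagonalConicBundles
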